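import Pool.Agent.H64.EV.Targets

/-!
# MP_fd35e1_ag: row ODI of evn_modules, the invariance contracted with a tensor
-/

set_option autoImplicit false
set_option linter.unusedSectionVars false

open Matrix Pool.Agent.H64.CC Pool.Agent.H2.NL Pool.Agent.H64.EV

namespace Pool.Agent.H11.EV

section

variable {K : Type} [Field K] {I : Type} [Fintype I] [DecidableEq I] (F : OForm K I)

private theorem Pr_congr : ∀ (n : ℕ) (f f' g : List I → K),
    (∀ l : List I, l.length = n → f l = f' l) → F.Pr n f g = F.Pr n f' g := by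
  intro n
  induction n with
  | zero =>
    intro f f' g h
    show f [] * g [] = f' [] * g []
    rw [h [] rfl]
  | succ n ih =>
    intro f f' g h
    show ∑ a, F.c a * F.Pr n (fun l => f (a :: l)) (fun l => g (F.st a :: l)) =
      ∑ a, F.c a * F.Pr n (fun l => f' (a :: l)) (fun l => g (F.st a :: l))
    refine Finset.sum_congr rfl fun a _ => ?_
    rw [ih _ (fun l => f' (a :: l)) _ fun l hl => h (a :: l) (by simp [hl])]

private theorem Pr_add : ∀ (n : ℕ) (f f' g : List I → K),
    F.Pr n (fun l => f l + f' l) g = F.Pr n f g + F.Pr n f' g := by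
  intro n
  induction n with
  | zero =>
    intro f f' g
    show (f [] + f' []) * g [] = f [] * g [] + f' [] * g []
    ring
  | succ n ih =>
    intro f f' g
    show ∑ a, F.c a * F.Pr n (fun l => f (a :: l) + f' (a :: l)) (fun l => g (F.st a :: l)) =
      ∑ a, F.c a * F.Pr n (fun l => f (a :: l)) (fun l => g (F.st a :: l)) +
      ∑ a, F.c a * F.Pr n (fun l => f' (a :: l)) (fun l => g (F.st a :: l))
    rw [← Finset.sum_add_distrib]
    refine Finset.sum_congr rfl fun a _ => ?_
    rw [ih (fun l => f (a :: l)) (fun l => f' (a :: l))]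
    ring

private theorem Pr_zero : ∀ (n : ℕ) (g : List I → K), F.Pr n (fun _ => 0) g = 0 := by
  intro n
  induction n with
  | zero =>
    intro g
    show 0 * g [] = 0
    ring
  | succ n ih =>
    intro g
    show ∑ a, F.c a * F.Pr n (fun _ => 0) (fun l => g (F.st a :: l)) = 0
    refine Finset.sum_eq_zero fun a _ => ?_
    rw [ih, mul_zero]

private theorem Pr_smul (s : K) : ∀ (n : ℕ) (f g : List I → K),
    F.Pr n (fun l => s * f l) g = s * F.Pr n f g := by
  intro n
  induction n with
  | zero =>
    intro f g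
    show s * f [] * g [] = s * (f [] * g [])
    ring
  | succ n ih =>
    intro f g
    show ∑ a, F.c a * F.Pr n (fun l => s * f (a :: l)) (fun l => g (F.st a :: l)) =
      s * ∑ a, F.c a * F.Pr n (fun l => f (a :: l)) (fun l => g (F.st a :: l))
    rw [Finset.mul_sum]
    refine Finset.sum_congr rfl fun a _ => ?_
    rw [ih (fun l => f (a :: l))]
    ring

private theorem Pr_sum {J : Type} (S : Finset J) (s : J → K) (n : ℕ) (f : J → List I → K)
    (g : List I → K) :
    F.Pr n (fun l => ∑ b ∈ S, s b * f b l) g = ∑ b ∈ S, s b * F.Pr n (f b) g := by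
  classical
  induction S using Finset.induction_on with
  | empty =>
    simp only [Finset.sum_empty]
    exact Pr_zero F n g
  | insert b S hb ih =>
    simp only [Finset.sum_insert hb]
    rw [Pr_add F n (fun l => s b * f b l) (fun l => ∑ b ∈ S, s b * f b l), Pr_smul, ih]

end

theorem sws_succ {K : Type} [Field K] {I : Type} (o : I → Bool) (t : List I → K) (a : I) :
    ∀ (js : List ℕ) (w : List I),
      sws o (js.map (· + 1)) t (a :: w) = sws o js (fun l => t (a :: l)) w := by
  intro js
  induction js with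
  | nil => intro w; rfl
  | cons j js ih =>
    intro w
    show sw o (j + 1) (sws o (js.map (· + 1)) t) (a :: w) =
      sw o j (sws o js (fun l => t (a :: l))) w
    show sw o j (fun l' => sws o (js.map (· + 1)) t (a :: l')) w =
      sw o j (sws o js (fun l => t (a :: l))) w
    rw [funext ih]

theorem mv_eq {K : Type} [Field K] {I : Type} (o : I → Bool) (i : ℕ) (t : List I → K) (a : I)
    (w : List I) : mv o (i + 1) t (a :: w) = sws o (List.range i) (fun l => t (a :: l)) w := by
  unfold mv
  have h : List.range' 1 (i + 1 - 1) = (List.range i).map (· + 1) := by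
    have h1 : (fun j : ℕ => j + 1) = fun j => 1 + j := funext fun j => Nat.add_comm j 1
    rw [Nat.add_sub_cancel, List.range_eq_range', h1, List.map_add_range']
  rw [h, sws_succ]

theorem pf_ODI (hODE : T_ODE) : T_ODI := by
  intro K _ _ V P _ _ _ _ F A hS k x y hk hx p q a d
  obtain ⟨m, rfl⟩ : ∃ m, k = m + 1 := ⟨k - 1, by omega⟩
  obtain ⟨T, hT⟩ : ∃ T, T = F.T (Sum.inl p) (Sum.inl q) := ⟨_, rfl⟩
  rw [← hT]
  have hpar : ∀ a b, T a b ≠ 0 → F.o a = F.o b := by
    intro a b hab
    rw [hT] at hab
    unfold OForm.T OForm.η at hab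
    simp only [Matrix.of_apply, hS.st_V] at hab
    by_cases h1 : a = Sum.inl p
    · by_cases h2 : b = Sum.inl q
      · rw [h1, h2, hS.o_V, hS.o_V]
      · by_cases h3 : a = Sum.inl q
        · by_cases h4 : b = Sum.inl p
          · rw [h1, h4]
          · exact absurd (by simp [h2, h4]) hab
        · exact absurd (by simp [h2, h3]) hab
    · by_cases h3 : a = Sum.inl q
      · by_cases h4 : b = Sum.inl p
        · rw [h3, h4, hS.o_V, hS.o_V]
        · exact absurd (by simp [h1, h4]) hab
      · exact absurd (by simp [h1, h3]) hab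
  have h1 := hODE K (V ⊕ P) F T hpar (2 * m + 1) (fun l => x (a :: l)) (fun l => y (d :: l))
  have h2 : F.Pr (2 * m + 1) (fun l => ∑ b, T a b * x (b :: l) +
      der T (fun l' => x (a :: l')) l) (fun l' => y (d :: l')) = 0 := by
    rw [Pr_congr F (2 * m + 1) _ (fun _ => 0) _ ?_, Pr_zero]
    intro l hl
    have h := hS.mono p q (m + 1) x hx (a :: l) (by simp [hl]; omega)
    rw [← hT] at h
    exact h
  rw [Pr_add F (2 * m + 1) (fun l => ∑ b, T a b * x (b :: l))
    (fun l => der T (fun l' => x (a :: l')) l),
    Pr_sum F Finset.univ (fun b => T a b) (2 * m + 1) (fun b l => x (b :: l))] at h2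
  have h3 : F.Pr (2 * m + 1) (fun l => der T (fun l' => x (a :: l')) l) (fun l' => y (d :: l')) =
      ∑ i ∈ Finset.range (2 * m + 1), ∑ e, ∑ b, F.c e * T e b *
        F.Pr (2 * m) (fun l => sws F.o (List.range i) (fun l => x (a :: l)) (b :: l))
          (fun l => sws F.o (List.range i) (fun l => y (d :: l)) (F.st e :: l)) := h1
  rw [h3] at h2
  have e0 : 2 * (m + 1) - 1 = 2 * m + 1 := by omega
  have e1 : ∀ b, F.C1 (2 * (m + 1)) x y b d =
      F.Pr (2 * m + 1) (fun l => x (b :: l)) (fun l' => y (d :: l')) := by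
    intro b
    unfold OForm.C1
    rw [e0]
  have e2 : ∀ (i : ℕ) (b e : V ⊕ P),
      F.C2 (2 * (m + 1)) (mv F.o (i + 1) x) (mv F.o (i + 1) y) a b (F.st e) d =
      F.Pr (2 * m) (fun l => sws F.o (List.range i) (fun l => x (a :: l)) (b :: l))
          (fun l => sws F.o (List.range i) (fun l => y (d :: l)) (F.st e :: l)) := by
    intro i b e
    unfold OForm.C2
    rw [show 2 * (m + 1) - 2 = 2 * m by omega]
    simp only [mv_eq]
  simp only [e0, e1, e2]
  exact h2

end Pool.Agent.H11.EV
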